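import Mathlib
import Pool.Agent.H63R3.PTT

/-!
# Clique counts in `F`-free graphs with `m` edges: cycles, `K_{1,b}`, `K_{2,b}`, treewidth two

For every connected graph `F` of treewidth at most two and every `s ≥ 3`, the largest number of
copies of `K_s` in an `F`-free graph with `m` edges is of order exactly `m` if `F` has more than `s`
vertices, and is zero otherwise. This covers all cycles (in particular all `C_{2k}`) and the complete
bipartite graphs `K_{1,b}` and `K_{2,b}`.
-/

open Filter Asymptotics SimpleGraph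

namespace Pool.Agent.Results.MP_80f86c_co.TreewidthTwo

open Pool.Agent.H63R3.PTT

lemma cycle_partialTwoTree (l : ℕ) : IsPartialTwoTree (cycleGraph l) := by
  let T : SimpleGraph (Fin l) :=
    { Adj := fun x y => x ≠ y ∧ ((x : ℕ) = 0 ∨ (y : ℕ) = 0 ∨ (x : ℕ) + 1 = y ∨ (y : ℕ) + 1 = x)
      symm := ⟨fun x y h => ⟨h.1.symm, by tauto⟩⟩
      loopless := ⟨fun x h => h.1 rfl⟩ }
  have aux : ∀ x y : Fin l, ((x - y : Fin l) : ℕ) = 1 →
      (x : ℕ) = 0 ∨ (y : ℕ) + 1 = x := by
    intro x y h
    have hx := x.2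
    have hy := y.2
    rw [Fin.val_sub] at h
    by_cases hxy : (y : ℕ) ≤ x
    · right
      have h1 : l - (y : ℕ) + x = (x - y) + l := by omega
      rw [h1, Nat.add_mod_right, Nat.mod_eq_of_lt (by omega)] at h
      omega
    · left
      rw [Nat.mod_eq_of_lt (by omega)] at h
      omega
  refine ⟨l, Equiv.refl _, T, ?_, ?_⟩
  · intro x y hxy
    refine ⟨hxy.ne, ?_⟩
    rw [cycleGraph_adj'] at hxy
    rcases hxy with h | h
    · have := aux x y h
      tauto
    · have := aux y x h
      tauto
  · intro i hi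
    simp only [Equiv.refl_apply] at hi ⊢
    have hil := i.2
    refine ⟨⟨0, by omega⟩, ⟨(i : ℕ) - 1, by omega⟩, ?_, ?_, ?_, ?_⟩
    · rw [Fin.lt_def]
      show 0 < (i : ℕ)
      omega
    · rw [Fin.lt_def]
      show (i : ℕ) - 1 < i
      omega
    · refine ⟨?_, Or.inl rfl⟩
      intro h
      have := congrArg Fin.val h
      simp only at this
      omega
    · intro x hx hxi
      rw [Fin.lt_def] at hx
      rcases hxi.2 with h | h | h | h
      · left; exact Fin.ext h
      · omega
      · right
        apply Fin.ext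
        show (x : ℕ) = (i : ℕ) - 1
        omega
      · omega

lemma bip_one_partialTwoTree (b : ℕ) :
    IsPartialTwoTree (completeBipartiteGraph (Fin 1) (Fin b)) := by
  refine ⟨1 + b, finSumFinEquiv, completeBipartiteGraph (Fin 1) (Fin b), le_rfl, ?_⟩
  rintro (i | c) hi
  · have := i.2
    simp only [finSumFinEquiv_apply_left, Fin.val_castAdd] at hi
    omega
  · simp only [finSumFinEquiv_apply_right, Fin.val_natAdd] at hi
    refine ⟨Sum.inl 0, Sum.inr ⟨0, by omega⟩, ?_, ?_, ?_, ?_⟩
    · rw [Fin.lt_def]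
      simp
    · rw [Fin.lt_def]
      simp only [finSumFinEquiv_apply_right, Fin.val_natAdd]
      omega
    · simp
    · rintro (x | x) _ hx
      · left
        rw [Subsingleton.elim x 0]
      · simp at hx

lemma bip_two_partialTwoTree (b : ℕ) :
    IsPartialTwoTree (completeBipartiteGraph (Fin 2) (Fin b)) := by
  refine ⟨2 + b, finSumFinEquiv,
    completeBipartiteGraph (Fin 2) (Fin b) ⊔ edge (Sum.inl 0) (Sum.inl 1), le_sup_left, ?_⟩
  rintro (i | c) hi
  · have := i.2
    simp only [finSumFinEquiv_apply_left, Fin.val_castAdd] at hi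
    omega
  · refine ⟨Sum.inl 0, Sum.inl 1, ?_, ?_, ?_, ?_⟩
    · rw [Fin.lt_def]
      simp
    · rw [Fin.lt_def]
      simp only [finSumFinEquiv_apply_right, Fin.val_natAdd, finSumFinEquiv_apply_left,
        Fin.val_castAdd]
      have : ((1 : Fin 2) : ℕ) = 1 := rfl
      omega
    · right
      rw [edge_adj]
      simp
    · rintro (x | x) _ hx
      · fin_cases x
        · left; rfl
        · right; rfl
      · rcases hx with hx | hx
        · simp at hx
        · rw [edge_adj] at hx
          simp at hx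

theorem result :
    (∀ (W : Type) [Finite W] (F : SimpleGraph W) (s : ℕ), Nat.card W ≤ s →
      ∀ (V : Type) [Finite V] (G : SimpleGraph V), F.Free G → numCliques s G = 0) ∧
    (∀ (W : Type) [Finite W] (F : SimpleGraph W), F.Connected → IsPartialTwoTree F →
      ∀ s, 3 ≤ s →
        (s < Nat.card W → (fun m : ℕ => (mex s m F : ℝ)) =Θ[atTop] (fun m : ℕ => (m : ℝ))) ∧
        (Nat.card W ≤ s → ∀ m, mex s m F = 0)) ∧
    (∀ l, 3 ≤ l → ∀ s, 3 ≤ s →
      (s < l → (fun m : ℕ => (mex s m (cycleGraph l) : ℝ)) =Θ[atTop] (fun m : ℕ => (m : ℝ))) ∧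
      (l ≤ s → ∀ m, mex s m (cycleGraph l) = 0)) ∧
    (∀ a b, a = 1 ∨ a = 2 → 1 ≤ b → ∀ s, 3 ≤ s →
      (s < a + b → (fun m : ℕ => (mex s m (completeBipartiteGraph (Fin a) (Fin b)) : ℝ))
        =Θ[atTop] (fun m : ℕ => (m : ℝ))) ∧
      (a + b ≤ s → ∀ m, mex s m (completeBipartiteGraph (Fin a) (Fin b)) = 0)) := by
  refine ⟨?_, ?_, ?_, ?_⟩
  · intro W _ F s hs V _ G hG
    exact numCliques_eq_zero hs G hG
  · intro W _ F hFc hF s hs
    exact ⟨fun h => mex_theta hF hFc (by omega) h, fun h m => mex_eq_zero F h m⟩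
  · intro l hl s hs
    have hcon : (cycleGraph l).Connected := by
      obtain ⟨n, rfl⟩ : ∃ n, l = n + 1 := ⟨l - 1, by omega⟩
      exact cycleGraph_connected
    refine ⟨fun h => ?_, fun h m => ?_⟩
    · exact mex_theta (cycle_partialTwoTree l) hcon (by omega) (by simpa using h)
    · exact mex_eq_zero _ (by simpa using h) m
  · intro a b ha hb s hs
    have hcard : Nat.card (Fin a ⊕ Fin b) = a + b := by simp
    have hT : IsPartialTwoTree (completeBipartiteGraph (Fin a) (Fin b)) := by
      rcases ha with rfl | rfl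
      · exact bip_one_partialTwoTree b
      · exact bip_two_partialTwoTree b
    have hcon : (completeBipartiteGraph (Fin a) (Fin b)).Connected := by
      have ha0 : 0 < a := by omega
      have h1 : ∀ x, (completeBipartiteGraph (Fin a) (Fin b)).Reachable (Sum.inl ⟨0, ha0⟩)
          (Sum.inr x) := fun x => Adj.reachable (by simp)
      have h2 : ∀ x, (completeBipartiteGraph (Fin a) (Fin b)).Reachable (Sum.inl ⟨0, ha0⟩)
          (Sum.inl x) := fun x =>
        (h1 ⟨0, hb⟩).trans (Adj.reachable (by simp))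
      have h3 : ∀ x, (completeBipartiteGraph (Fin a) (Fin b)).Reachable (Sum.inl ⟨0, ha0⟩) x := by
        rintro (x | x)
        · exact h2 x
        · exact h1 x
      have : Nonempty (Fin a ⊕ Fin b) := ⟨Sum.inl ⟨0, ha0⟩⟩
      exact ⟨fun x y => (h3 x).symm.trans (h3 y)⟩
    refine ⟨fun h => ?_, fun h m => ?_⟩
    · exact mex_theta hT hcon (by omega) (by rw [hcard]; exact h)
    · exact mex_eq_zero _ (by rw [hcard]; exact h) m

end Pool.Agent.Results.MP_80f86c_co.TreewidthTwo
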